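import Pool.Agent.Q300.Contact.Triangle
import Mathlib.Data.Fintype.Pigeonhole
import Mathlib.Topology.Compactness.Compact
import Mathlib.Topology.Ultrafilter

/-!
# MP_2fbd40_lc, Q1: the `n`-ary contact is not first-order definable for `n ≥ 3`

The language of contact algebras (`Lang`) and the standard contact algebra `RC X` of the regular
closed sets of a topological space `X` are defined in `Pool.Agent.Q300.Contact.Basic`.
-/

set_option autoImplicit false

open FirstOrder FirstOrder.Language

namespace Pool.Agent.Results.MP_2fbd40_lc.NotDefinable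

open Pool.Agent.Q300.Contact

/-- The `n`-ary contact: the regular closed sets have a common point. -/
def Contact {X : Type} [TopologicalSpace X] {n : ℕ} (a : Fin n → RC X) : Prop :=
  (⋂ i, (a i).1).Nonempty

/-- The clans of the contact algebra `RC X`. -/
structure IsClan {X : Type} [TopologicalSpace X] (Γ : Set (RC X)) : Prop where
  nonempty : Γ.Nonempty
  ne_empty : ∀ a ∈ Γ, a.1 ≠ ∅
  mono : ∀ a ∈ Γ, ∀ b : RC X, a.1 ⊆ b.1 → b ∈ Γ
  union : ∀ a b c : RC X, c ∈ Γ → c.1 = a.1 ∪ b.1 → a ∈ Γ ∨ b ∈ Γ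
  contact : ∀ a ∈ Γ, ∀ b ∈ Γ, (a.1 ∩ b.1).Nonempty

/-- In the space `X` the second-order formula `some clan contains all elements of the tuple`
defines the contact relations of all arities. -/
def ContactByClans (X : Type) [TopologicalSpace X] : Prop :=
  ∀ (m : ℕ) (b : Fin m → RC X), Contact b ↔ ∃ Γ : Set (RC X), IsClan Γ ∧ ∀ i, b i ∈ Γ

/-- The complements of the regular closed sets form a basis. -/
def Semiregular (X : Type) [TopologicalSpace X] : Prop :=
  ∀ U : Set X, IsOpen U → ∀ x ∈ U, ∃ a : RC X, x ∉ a.1 ∧ (a.1)ᶜ ⊆ U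

/-! ### The spaces of clans -/

section Space

variable {G : Gr} {A : Set (Set (Set G.D))} (hA : Big G A)

theorem t0 : @T0Space _ (topology hA) := by
  let _ := topology hA
  refine ⟨fun Γ Γ' h1 => ?_⟩
  apply Subtype.ext
  ext S
  have h2 := (h1.mem_closed_iff (isClosed_h hA S))
  exact h2

theorem semiregular : @Semiregular _ (topology hA) := by
  let _ := topology hA
  intro U hU Γ hΓ
  obtain ⟨S, hS, hS'⟩ := hU Γ hΓ
  exact ⟨⟨h A S, regular_h hA S⟩, hS, fun Γ' h' => hS' Γ' h'⟩

theorem big_all (G : Gr) : Big G {Γ | GClan G Γ} := ⟨fun _ h => h, fun _ _ h => two_clan h⟩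

theorem compact (G : Gr) : @CompactSpace _ (topology (big_all G)) := by
  let _ := topology (big_all G)
  refine ⟨isCompact_iff_ultrafilter_le_nhds.2 fun V _ => ?_⟩
  have hclan : GClan G {S | ∀ᶠ Γ in V, S ∈ (Γ : Sp G {Γ | GClan G Γ}).1} := by
    constructor
    · exact Filter.Eventually.of_forall fun Γ => Γ.2.univ_mem
    · intro h
      obtain ⟨Γ, hΓ⟩ := Filter.Eventually.exists h
      exact Γ.2.empty_notMem hΓ
    · intro S S' hS hSS'
      exact Filter.Eventually.mono hS fun Γ h => Γ.2.mono S S' h hSS'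
    · intro S S' hSS'
      have h1 : (∀ᶠ Γ in V, S ∈ (Γ : Sp G {Γ | GClan G Γ}).1) ∨
          ∀ᶠ Γ in V, S' ∈ (Γ : Sp G {Γ | GClan G Γ}).1 := by
        rw [← Ultrafilter.eventually_or]
        exact Filter.Eventually.mono hSS' fun Γ h => Γ.2.union S S' h
      exact h1
    · intro S S' hS hS'
      obtain ⟨Γ, h1, h2⟩ := (Filter.Eventually.and hS hS').exists
      exact Γ.2.con S S' h1 h2
  refine ⟨⟨_, hclan⟩, trivial, ?_⟩
  intro N hN
  obtain ⟨U, hUN, hU, hΓ⟩ := mem_nhds_iff.1 hN
  obtain ⟨S, hS, hS'⟩ := hU _ hΓ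
  have h1 : ∀ᶠ Γ in V, S ∉ (Γ : Sp G {Γ | GClan G Γ}).1 := by
    rw [Ultrafilter.eventually_not]
    exact hS
  exact Filter.mem_of_superset h1 fun Γ h => hUN (hS' Γ h)

theorem contactByClans (G : Gr) : @ContactByClans _ (topology (big_all G)) := by
  let _ := topology (big_all G)
  intro m b
  constructor
  · rintro ⟨Γ, hΓ⟩
    rw [Set.mem_iInter] at hΓ
    refine ⟨{a | Γ ∈ a.1}, ?_, hΓ⟩
    constructor
    · exact ⟨⟨Set.univ, by simp⟩, trivial⟩
    · intro a ha h0
      have ha' : Γ ∈ a.1 := ha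
      rw [h0] at ha'
      exact ha'
    · intro a ha b hab
      exact hab ha
    · intro a b c hc h0
      have hc' : Γ ∈ c.1 := hc
      rw [h0] at hc'
      exact hc'
    · intro a ha b hb
      exact ⟨Γ, ha, hb⟩
  · rintro ⟨Δ, hΔ, hb⟩
    have hmem : GClan G {S | (iso (big_all G) (ofSet S)) ∈ Δ} := by
      constructor
      · obtain ⟨a, ha⟩ := hΔ.nonempty
        refine hΔ.mono a ha _ ?_
        intro Γ _
        exact Γ.2.univ_mem
      · intro h0
        apply hΔ.ne_empty _ h0
        rw [Set.eq_empty_iff_forall_notMem]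
        exact fun Γ hΓ => Γ.2.empty_notMem hΓ
      · intro S S' hS hSS'
        exact hΔ.mono _ hS _ fun Γ hΓ => Γ.2.mono _ _ hΓ hSS'
      · intro S S' hSS'
        exact hΔ.union _ _ _ hSS' (h_union (big_all G) S S')
      · intro S S' hS hS'
        exact (h_con (big_all G) S S').1 (hΔ.contact _ hS _ hS')
    refine ⟨⟨_, hmem⟩, Set.mem_iInter.2 fun i => ?_⟩
    obtain ⟨S, hS⟩ := (iso (big_all G)).surjective (b i)
    have h1 : (b i).1 = h {Γ | GClan G Γ} (toSet S) := by
      rw [← hS]
      rfl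
    rw [h1]
    change (iso (big_all G)) (ofSet (toSet S)) ∈ Δ
    have h2 : (iso (big_all G)) (ofSet (toSet S)) = b i := hS
    rw [h2]
    exact hb i

end Space

/-- The tuple with the entries given by the three parts. -/
def three (n : ℕ) (i : Fin n) : Fin 3 := ⟨min i.1 2, by omega⟩

theorem three_surj {n : ℕ} (hn : 3 ≤ n) (c : Fin 3) : ∃ i, three n i = c :=
  ⟨⟨c.1, by omega⟩, by apply Fin.ext; simp [three]; omega⟩

theorem not_definable (n : ℕ) (hn : 3 ≤ n) (φ : Lang.Formula (Fin n)) :
    ∃ (G : Gr) (a : Fin n → Alg G),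
      ¬ (φ.Realize a ↔ ∃ Γ, GClan G Γ ∧ ∀ i, toSet (a i) ∈ Γ) := by
  classical
  by_contra hcon
  push Not at hcon
  obtain ⟨ι, _, θ, Φ, hΦ⟩ := fv φ
  -- the patterns
  let τ : ℕ → Set ι := fun k => {j | (θ j).Realize (fun i => part k (three n i)) default}
  obtain ⟨y, hy⟩ := Finite.exists_infinite_fiber τ
  have hinf : (τ ⁻¹' {y}).Infinite := Set.infinite_coe_iff.1 hy
  have hex : ∀ N, ∃ k, N ≤ k ∧ τ k = y := by
    intro N
    obtain ⟨k, hk, hNk⟩ := hinf.exists_gt N
    exact ⟨k, hNk.le, hk⟩
  choose K hK hτ using hex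
  -- the truth value of `φ` in the disjoint unions
  have key : ∀ L : ℕ → ℕ, (∀ N, τ (L N) = y) →
      (φ.Realize (fun i => parts L (three n i)) ↔ Φ fun j => {_i : ℕ | j ∈ y}) := by
    intro L hL
    have h1 := hΦ (fun N => T (L N)) (fun i => parts L (three n i)) default
    rw [Formula.Realize, h1]
    apply iff_of_eq
    congr 1
    funext j
    ext N
    rw [← hL N]
    change (θ j).Realize _ _ ↔ (θ j).Realize _ _
    apply iff_of_eq
    congr 1
    funext i
    exact i.elim0
  have h1 := key K hτ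
  have h2 := key (fun _ => K 0) fun _ => hτ 0
  have h3 : ∃ Γ, GClan (sumG fun i => T (K i)) Γ ∧ ∀ i, toSet (parts K (three n i)) ∈ Γ := by
    obtain ⟨Γ, hΓ, h⟩ := exists_clan K hK
    exact ⟨Γ, hΓ, fun i => h _⟩
  have h4 := (hcon _ (fun i => parts K (three n i))).2 h3
  have h5 := h2.2 (h1.1 h4)
  obtain ⟨Γ, hΓ, h6⟩ := (hcon _ (fun i => parts (fun _ => K 0) (three n i))).1 h5
  refine not_exists_clan (K 0) Γ hΓ fun c => ?_
  obtain ⟨i, rfl⟩ := three_surj hn c
  exact h6 i

/-! ### The finite spaces -/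

/-- The complete graph with three vertices. -/
def K3 : Gr where
  D := Fin 3
  R _ _ := True
  refl := fun _ => trivial
  symm := fun _ _ _ => trivial

/-- Only the clans of two elements. -/
def small : Set (Set (Set K3.D)) := {Γ | ∃ s t : K3.D, Γ = two K3 s t}

theorem big_small : Big K3 small where
  clan := by
    rintro _ ⟨s, t, rfl⟩
    exact two_clan trivial
  two := fun s t _ => ⟨s, t, rfl⟩

theorem clan_K3 : GClan K3 {S | S.Nonempty} where
  univ_mem := ⟨(0 : Fin 3), trivial⟩
  empty_notMem := fun h => Set.not_nonempty_empty h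
  mono := fun _ _ h hST => h.mono hST
  union := fun _ _ h => Set.union_nonempty.1 h
  con := by
    rintro S S' ⟨s, hs⟩ ⟨t, ht⟩
    exact ⟨s, hs, t, ht, trivial⟩

theorem no_two : ∀ s t : Fin 3, ¬ ∀ c : Fin 3, s = c ∨ t = c := by decide

/-- **Negative answer to Q1.** Let `n ≥ 3`.

(1) For every first-order formula `φ` of the language of contact algebras there is a topological
space `X` (compact, `T₀` and semiregular, and such that the contact relations are defined by the
second-order formula about clans in `X`) for which `φ` does not define the `n`-ary contact.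

(2) There are finite `T₀` spaces `X` and `Y`, an isomorphism between their contact algebras of
regular closed sets and an `n`-tuple which is in contact in `X` and whose image is not in
contact in `Y`. -/
theorem result (n : ℕ) (hn : 3 ≤ n) :
    (∀ φ : Lang.Formula (Fin n), ∃ (X : Type) (_ : TopologicalSpace X), CompactSpace X ∧
      T0Space X ∧ Semiregular X ∧ ContactByClans X ∧
        ∃ a : Fin n → RC X, ¬ (φ.Realize a ↔ Contact a)) ∧
    ∃ (X Y : Type) (_ : TopologicalSpace X) (_ : TopologicalSpace Y) (e : RC X ≃[Lang] RC Y)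
      (a : Fin n → RC X), Finite X ∧ Finite Y ∧ T0Space X ∧ T0Space Y ∧ Contact a ∧
        ¬ Contact fun i => e (a i) := by
  constructor
  · intro φ
    obtain ⟨G, a, ha⟩ := not_definable n hn φ
    refine ⟨Sp G {Γ | GClan G Γ}, topology (big_all G), compact G, t0 _, semiregular _,
      contactByClans G, fun i => iso (big_all G) (a i), fun hcon => ha ?_⟩
    have h1 : φ.Realize (iso (big_all G) ∘ a) ↔ φ.Realize a :=
      StrongHomClass.realize_formula _ φ
    rw [← h1]
    refine Iff.trans hcon ?_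
    unfold Contact
    constructor
    · rintro ⟨Γ, hΓ⟩
      rw [Set.mem_iInter] at hΓ
      exact ⟨Γ.1, Γ.2, hΓ⟩
    · rintro ⟨Γ, hΓ, h2⟩
      exact ⟨⟨Γ, hΓ⟩, Set.mem_iInter.2 h2⟩
  · let _ : TopologicalSpace (Sp K3 {Γ | GClan K3 Γ}) := topology (big_all K3)
    let _ : TopologicalSpace (Sp K3 small) := topology big_small
    have hf : ∀ A : Set (Set (Set K3.D)), Finite (Sp K3 A) := by
      intro A
      have : Finite K3.D := inferInstanceAs (Finite (Fin 3))
      exact inferInstanceAs (Finite {Γ : Set (Set K3.D) // Γ ∈ A})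
    let S : Fin n → Alg K3 := fun i => ofSet (G := K3) ({three n i} : Set (Fin 3))
    refine ⟨Sp K3 {Γ | GClan K3 Γ}, Sp K3 small, inferInstance, inferInstance,
      (iso big_small).comp (iso (big_all K3)).symm,
      fun i => iso (big_all K3) (S i), hf _, hf _,
      t0 (big_all K3), t0 big_small,
      ?_, ?_⟩
    · refine ⟨⟨_, clan_K3⟩, Set.mem_iInter.2 fun i => ?_⟩
      exact Set.singleton_nonempty (three n i)
    · rintro ⟨⟨_, s, t, rfl⟩, hΓ⟩
      have hΓ' := Set.mem_iInter.1 hΓ
      have h1 : ∀ i, s ∈ ({three n i} : Set (Fin 3)) ∨ t ∈ ({three n i} : Set (Fin 3)) := by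
        intro i
        have h2 := hΓ' i
        have h3 : ((iso big_small).comp (iso (big_all K3)).symm) (iso (big_all K3) (S i)) =
            iso big_small (S i) :=
          congrArg (iso big_small) ((iso (big_all K3)).toEquiv.symm_apply_apply (S i))
        have h4 := congrArg Subtype.val h3
        have h5 : (⟨two K3 s t, ⟨s, t, rfl⟩⟩ : Sp K3 small) ∈ (iso big_small (S i)).1 := by
          rw [← h4]
          exact h2
        exact h5
      have h3 : ∀ c : Fin 3, s = c ∨ t = c := by
        intro c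
        obtain ⟨i, rfl⟩ := three_surj hn c
        exact h1 i
      exact no_two s t h3

end Pool.Agent.Results.MP_2fbd40_lc.NotDefinable
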